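import Pool.Agent.Q176.NE.MsB
import Pool.Agent.H99R3.Task469M

/-!
# Job MS: mean square of the outer part
-/

set_option autoImplicit false

open MeasureTheory Filter Topology Finset

namespace Pool.Agent.Q176.NE

open Pool.Agent.Q286.NE Pool.Agent.Q286.AP Pool.Agent.H469R10.HO
open Pool.Agent.H82R3.T469J (mm)
open Pool.Agent.H99R3.M469 (tr tr_cont tr_bd tr_cell QQ_w QQ_1w f0 f1 f0_eq f0_hd)

lemma jj_large {c lam : ℝ} (hc : 0 < c) (hlam : 1 ≤ lam) (l : ℕ) :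
    ∃ n0 : ℕ, ∀ n, n0 ≤ n → ¬ (1 + jj c lam n < 2 ^ l) := by
  have h1 : Tendsto (fun n : ℕ => 2 / Real.pi * uu c lam n + 1 / 2) atTop atTop := by
    refine tendsto_atTop_add_const_right _ _ ?_
    refine Tendsto.const_mul_atTop (by positivity) ?_
    unfold uu
    refine Tendsto.const_mul_atTop hc ?_
    exact (tendsto_rpow_atTop (by positivity)).comp tendsto_natCast_atTop_atTop
  have h2 := (tendsto_atTop.1 h1) ((2 : ℝ) ^ l)
  obtain ⟨n0, hn0⟩ := eventually_atTop.1 h2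
  refine ⟨n0, fun n hn hlt => ?_⟩
  have h3 := hn0 n hn
  have h4 : 2 ^ l ≤ jj c lam n := by
    unfold jj cell
    apply Nat.le_floor
    push_cast
    exact h3
  omega

lemma near {c lam : ℝ} (hc : 0 < c) (n : ℕ) : |uu c lam n - xx (jj c lam n)| ≤ 1 :=
  cell_near (uu_nonneg hc.le n)

lemma QQ_low {c lam : ℝ} {α : ℕ → ℝ} {l : ℕ} {S : Finset ℕ}
    (hS : ∀ n ∈ S, 1 + jj c lam n < 2 ^ l) :
    QQ (fun y => (1 + (y : ℝ)) ^ 2) S (jj c lam) α = 4 ^ l * QQ (mm l) S (jj c lam) α := by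
  unfold QQ
  rw [mul_sum]
  refine sum_congr rfl fun y hy => ?_
  obtain ⟨n, hn, rfl⟩ := mem_image.1 hy
  rw [mm, if_pos (hS n hn)]
  field_simp

lemma QQ_high {c lam : ℝ} {α : ℕ → ℝ} {l : ℕ} {S : Finset ℕ}
    (hS : ∀ n ∈ S, ¬ 1 + jj c lam n < 2 ^ l) :
    QQ (fun _ => 1) S (jj c lam) α = QQ (mm l) S (jj c lam) α := by
  unfold QQ
  refine sum_congr rfl fun y hy => ?_
  obtain ⟨n, hn, rfl⟩ := mem_image.1 hy
  rw [mm, if_neg (hS n hn)]

/-- windows of the infinite high part -/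
lemma high_win {c lam : ℝ} (hc : 0 < c) {α : ℕ → ℝ} (hα : Summable fun n => |α n|) {l : ℕ} {N : ℝ}
    (hN : ∀ S : Finset ℕ, QQ (mm l) S (jj c lam) α ≤ N) {S : Finset ℕ}
    (hS : ∀ n, n ∉ S → ¬ 1 + jj c lam n < 2 ^ l) (A : ℝ) :
    ∫ x in A..(A + 2), Th c lam (fun n => if n ∈ S then 0 else α n) x ^ 2 ≤ 60 * N := by
  classical
  obtain ⟨a, ha⟩ : ∃ a : ℕ → ℝ, a = fun n => if n ∈ S then 0 else α n := ⟨_, rfl⟩
  rw [← ha]
  have haα : ∀ n, |a n| ≤ |α n| := by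
    intro n
    rw [ha]
    simp only
    split_ifs
    · simp
    · exact le_rfl
  have hasum : Summable fun n => |a n| := Summable.of_nonneg_of_le (fun _ => abs_nonneg _) haα hα
  have hterm : ∀ n x, ‖a n * Real.cos (uu c lam n * x)‖ ≤ |a n| := by
    intro n x
    rw [Real.norm_eq_abs, abs_mul]
    exact mul_le_of_le_one_right (abs_nonneg _) (Real.abs_cos_le_one _)
  have hs : ∀ x, HasSum (fun n => a n * Real.cos (uu c lam n * x)) (Th c lam a x) := fun x =>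
    (Summable.of_norm_bounded hasum (fun n => hterm n x)).hasSum
  have hpart : ∀ n : ℕ, ∀ x, ∑ i ∈ range n, a i * Real.cos (uu c lam i * x) =
      tr ((range n).filter (fun i => i ∉ S)) α (uu c lam) (fun _ => 0) x := by
    intro n x
    unfold tr
    rw [sum_filter]
    refine sum_congr rfl fun i _ => ?_
    rw [ha]
    by_cases h : i ∈ S
    · simp [h]
    · simp [h]
  have hlim : Tendsto (fun n : ℕ => ∫ x in A..(A + 2),
      (∑ i ∈ range n, a i * Real.cos (uu c lam i * x)) ^ 2) atTop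
      (𝓝 (∫ x in A..(A + 2), Th c lam a x ^ 2)) := by
    refine intervalIntegral.tendsto_integral_filter_of_dominated_convergence
      (fun _ => (∑' n, |a n|) ^ 2) ?_ ?_ ?_ ?_
    · refine Filter.Eventually.of_forall fun n => ?_
      have : Continuous fun x : ℝ => (∑ i ∈ range n, a i * Real.cos (uu c lam i * x)) ^ 2 := by
        fun_prop
      exact this.aestronglyMeasurable
    · refine Filter.Eventually.of_forall fun n => Filter.Eventually.of_forall fun x _ => ?_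
      rw [Real.norm_of_nonneg (sq_nonneg _), ← sq_abs]
      refine pow_le_pow_left₀ (abs_nonneg _) ?_ 2
      calc |∑ i ∈ range n, a i * Real.cos (uu c lam i * x)|
          ≤ ∑ i ∈ range n, |a i * Real.cos (uu c lam i * x)| := abs_sum_le_sum_abs _ _
        _ ≤ ∑ i ∈ range n, |a i| := sum_le_sum fun i _ => hterm i x
        _ ≤ _ := hasum.sum_le_tsum _ fun _ _ => abs_nonneg _
    · simp
    · refine Filter.Eventually.of_forall fun x _ => ?_
      exact ((hs x).tendsto_sum_nat).pow 2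
  refine le_of_tendsto' hlim fun n => ?_
  simp only [hpart n]
  refine (tr_cell (cl := jj c lam) (fun i _ => near hc i) A).trans ?_
  refine mul_le_mul_of_nonneg_left ?_ (by norm_num)
  rw [QQ_high (l := l)]
  · exact hN _
  · intro i hi
    exact hS i (mem_filter.1 hi).2

theorem ms : S_MS := by
  classical
  obtain ⟨K, hK0, hK⟩ := psi'_bd
  have hpi := Real.pi_pos
  refine ⟨4 * Real.pi * (120 + 2160 * (K ^ 2 + 5)), by positivity, ?_⟩
  intro c lam α hc hlam hα m l N hN ξ hξ s hs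
  obtain ⟨n0, hn0⟩ := jj_large hc hlam l
  let S := (range n0).filter (fun n => 1 + jj c lam n < 2 ^ l)
  have hSl : ∀ n ∈ S, 1 + jj c lam n < 2 ^ l := fun n hn => (mem_filter.1 hn).2
  have hSh : ∀ n, n ∉ S → ¬ 1 + jj c lam n < 2 ^ l := by
    intro n hn hlt
    refine hn (mem_filter.2 ⟨?_, hlt⟩)
    rw [mem_range]
    by_contra h
    exact hn0 n (not_lt.1 h) hlt
  have hN0 : 0 ≤ N := by
    have := hN ∅
    simpa [QQ] using this
  -- the two parts
  let gl : ℝ → ℝ := f0 S α (uu c lam)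
  let gl' : ℝ → ℝ := f1 S α (uu c lam)
  let ah : ℕ → ℝ := fun n => if n ∈ S then 0 else α n
  let gh : ℝ → ℝ := Th c lam ah
  have hglc : Continuous gl := tr_cont _ _ _ _
  have hglc' : Continuous gl' := tr_cont _ _ _ _
  have hgld : ∀ x, HasDerivAt gl (gl' x) x := fun x => f0_hd S α (uu c lam) x
  have hglb := fun x => tr_bd S α (uu c lam) (fun _ => 0) x
  have hglb' := fun x => tr_bd S (fun i => α i * uu c lam i) (uu c lam) (fun _ => Real.pi / 2) x
  have hah : ∀ n, |ah n| ≤ |α n| := by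
    intro n
    simp only [ah]
    split_ifs
    · simp
    · exact le_rfl
  have hahs : Summable fun n => |ah n| := Summable.of_nonneg_of_le (fun _ => abs_nonneg _) hah hα
  have hterm : ∀ n x, ‖ah n * Real.cos (uu c lam n * x)‖ ≤ |ah n| := by
    intro n x
    rw [Real.norm_eq_abs, abs_mul]
    exact mul_le_of_le_one_right (abs_nonneg _) (Real.abs_cos_le_one _)
  have hghc : Continuous gh := continuous_tsum (fun n => by fun_prop) hahs hterm
  have hghb : ∀ x, |gh x| ≤ ∑' n, |ah n| := fun x =>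
    tsum_of_norm_bounded hahs.hasSum (fun n => hterm n x)
  have hTh : Th c lam α = fun x => gl x + gh x := by
    funext x
    have e1 : ∑ n ∈ S, α n * Real.cos (uu c lam n * x) =
        ∑' n, (if n ∈ S then α n * Real.cos (uu c lam n * x) else 0) := by
      rw [tsum_eq_sum (s := S)]
      · exact sum_congr rfl fun n hn => by rw [if_pos hn]
      · intro n hn
        rw [if_neg hn]
    have e2 : gl x = ∑ n ∈ S, α n * Real.cos (uu c lam n * x) := by
      simp only [gl, f0_eq]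
    have e3 : gh x = ∑' n, ah n * Real.cos (uu c lam n * x) := rfl
    rw [e2, e3, e1, ← Summable.tsum_add]
    · unfold Th
      refine tsum_congr fun n => ?_
      simp only [ah]
      split_ifs
      · ring
      · ring
    · exact summable_of_ne_finset_zero (s := S) fun n hn => by rw [if_neg hn]
    · exact Summable.of_norm_bounded hahs (fun n => hterm n x)
  -- windows
  have hQl : QQ (fun y => (1 + (y : ℝ)) ^ 2) S (jj c lam) α ≤ 4 ^ l * N := by
    rw [QQ_low hSl]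
    exact mul_le_mul_of_nonneg_left (hN S) (by positivity)
  have hwl : ∀ A, ∫ x in A..(A + 2), gl x ^ 2 ≤ 60 * (4 ^ l * N) := by
    intro A
    refine (tr_cell (cl := jj c lam) (fun i _ => near hc i) A).trans ?_
    exact mul_le_mul_of_nonneg_left (QQ_1w.trans hQl) (by norm_num)
  have hwl' : ∀ A, ∫ x in A..(A + 2), gl' x ^ 2 ≤ 240 * (4 ^ l * N) := by
    intro A
    refine (tr_cell (cl := jj c lam) (fun i _ => near hc i) A).trans ?_
    have h1 := (QQ_w (S := S) (cl := jj c lam) (β := α) (ω := uu c lam)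
      (fun i _ => near hc i)).trans (mul_le_mul_of_nonneg_left hQl (by norm_num))
    linarith
  have hwh : ∀ A, ∫ x in A..(A + 2), gh x ^ 2 ≤ 60 * N := fun A => high_win hc hα hN hSh A
  -- estimates
  have hab : (2 : ℝ) ^ l / 2 ≤ 4 * 2 ^ l := by
    have : (0 : ℝ) < 2 ^ l := by positivity
    linarith
  have ha0 : (0 : ℝ) < 2 ^ l / 2 := by positivity
  obtain ⟨ch, Hh⟩ := high hξ hghc hghb hwh hs
  obtain ⟨cl, -⟩ := high hξ hglc hglb hwl hs
  have Hh := Hh _ _ hab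
  have Hl := low hK hξ hgld hglc' hglb hglb' hwl hwl' hs ha0 hab
  have hEE : ∀ τ : ℝ, EE c lam m α ((ξ : ℂ) + ((s * τ : ℝ) : ℂ) * Complex.I) =
      Em m gl ((ξ : ℂ) + ((s * τ : ℝ) : ℂ) * Complex.I) +
      Em m gh ((ξ : ℂ) + ((s * τ : ℝ) : ℂ) * Complex.I) := by
    intro τ
    rw [← Em_add hξ hglc hglb hghc hghb, ← hTh]
    rfl
  have hle : ∀ τ : ℝ, ‖EE c lam m α ((ξ : ℂ) + ((s * τ : ℝ) : ℂ) * Complex.I)‖ ^ 2 ≤
      2 * ‖Em m gl ((ξ : ℂ) + ((s * τ : ℝ) : ℂ) * Complex.I)‖ ^ 2 +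
      2 * ‖Em m gh ((ξ : ℂ) + ((s * τ : ℝ) : ℂ) * Complex.I)‖ ^ 2 := by
    intro τ
    rw [hEE τ]
    have h1 := norm_add_le (Em m gl ((ξ : ℂ) + ((s * τ : ℝ) : ℂ) * Complex.I))
      (Em m gh ((ξ : ℂ) + ((s * τ : ℝ) : ℂ) * Complex.I))
    have h2 := pow_le_pow_left₀ (norm_nonneg _) h1 2
    nlinarith [sq_nonneg (‖Em m gl ((ξ : ℂ) + ((s * τ : ℝ) : ℂ) * Complex.I)‖ -
      ‖Em m gh ((ξ : ℂ) + ((s * τ : ℝ) : ℂ) * Complex.I)‖)]
  have hEEc : Continuous fun τ : ℝ => EE c lam m α ((ξ : ℂ) + ((s * τ : ℝ) : ℂ) * Complex.I) := by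
    simp only [hEE]
    exact cl.add ch
  have hmain : ∫ τ in ((2 : ℝ) ^ l / 2)..(4 * 2 ^ l),
      ‖EE c lam m α ((ξ : ℂ) + ((s * τ : ℝ) : ℂ) * Complex.I)‖ ^ 2 ≤
      2 * (∫ τ in ((2 : ℝ) ^ l / 2)..(4 * 2 ^ l),
        ‖Em m gl ((ξ : ℂ) + ((s * τ : ℝ) : ℂ) * Complex.I)‖ ^ 2) +
      2 * ∫ τ in ((2 : ℝ) ^ l / 2)..(4 * 2 ^ l),
        ‖Em m gh ((ξ : ℂ) + ((s * τ : ℝ) : ℂ) * Complex.I)‖ ^ 2 := by
    have i1 : IntervalIntegrable (fun τ : ℝ =>
        2 * ‖Em m gl ((ξ : ℂ) + ((s * τ : ℝ) : ℂ) * Complex.I)‖ ^ 2) volume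
        ((2 : ℝ) ^ l / 2) (4 * 2 ^ l) :=
      (continuous_const.mul (cl.norm.pow 2)).intervalIntegrable _ _
    have i2 : IntervalIntegrable (fun τ : ℝ =>
        2 * ‖Em m gh ((ξ : ℂ) + ((s * τ : ℝ) : ℂ) * Complex.I)‖ ^ 2) volume
        ((2 : ℝ) ^ l / 2) (4 * 2 ^ l) :=
      (continuous_const.mul (ch.norm.pow 2)).intervalIntegrable _ _
    rw [← intervalIntegral.integral_const_mul, ← intervalIntegral.integral_const_mul,
      ← intervalIntegral.integral_add i1 i2]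
    exact intervalIntegral.integral_mono_on hab ((hEEc.norm.pow 2).intervalIntegrable _ _)
      (((continuous_const.mul (cl.norm.pow 2)).add
        (continuous_const.mul (ch.norm.pow 2))).intervalIntegrable _ _) fun τ _ => hle τ
  refine hmain.trans ?_
  obtain ⟨R, hR⟩ : ∃ R : ℝ, R = (3 / 2 : ℝ) ^ (-(2 * (m - ξ))) := ⟨_, rfl⟩
  have hR0 : 0 < R := hR ▸ by positivity
  rw [← hR]
  have r1 : (3 / 2 : ℝ) ^ (-(2 * (m - ξ) + 1)) ≤ R := by
    rw [hR]
    exact Real.rpow_le_rpow_of_exponent_le (by norm_num) (by linarith)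
  have r2 : (3 / 2 : ℝ) ^ (-(2 * (m - ξ) - 2 + 1)) = 3 / 2 * R := by
    rw [hR, ← Real.rpow_one_add' (by norm_num) (by linarith)]
    congr 1
    ring
  have B1 : ∫ τ in ((2 : ℝ) ^ l / 2)..(4 * 2 ^ l),
        ‖Em m gh ((ξ : ℂ) + ((s * τ : ℝ) : ℂ) * Complex.I)‖ ^ 2 ≤
      2 * Real.pi * (120 * (R * N)) := by
    refine Hh.trans ?_
    refine mul_le_mul_of_nonneg_left ?_ (by positivity)
    have := mul_le_mul_of_nonneg_right r1 hN0
    linarith
  have B2 : ∫ τ in ((2 : ℝ) ^ l / 2)..(4 * 2 ^ l),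
        ‖Em m gl ((ξ : ℂ) + ((s * τ : ℝ) : ℂ) * Complex.I)‖ ^ 2 ≤
      2 * Real.pi * (2160 * (K ^ 2 + m ^ 2 + 4) * (R * N)) := by
    refine Hl.trans (le_of_eq ?_)
    rw [r2]
    have h4 : (4 : ℝ) ^ l = (2 ^ l) ^ 2 := by
      rw [← pow_mul, mul_comm, pow_mul]; norm_num
    rw [h4]
    have h5 : (2 : ℝ) ^ l ≠ 0 := by positivity
    field_simp
    ring
  have hm0 : (0 : ℝ) ≤ m := Nat.cast_nonneg m
  have hRN : 0 ≤ R * N := by positivity
  have hfin : 120 + 2160 * (K ^ 2 + (m : ℝ) ^ 2 + 4) ≤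
      (120 + 2160 * (K ^ 2 + 5)) * ((m : ℝ) + 1) ^ 2 := by
    have h1 : 1 ≤ ((m : ℝ) + 1) ^ 2 := by nlinarith
    have h2 : K ^ 2 * 1 ≤ K ^ 2 * ((m : ℝ) + 1) ^ 2 := mul_le_mul_of_nonneg_left h1 (sq_nonneg K)
    nlinarith
  have hfin2 := mul_le_mul_of_nonneg_right hfin hRN
  calc _ ≤ 2 * (2 * Real.pi * (2160 * (K ^ 2 + m ^ 2 + 4) * (R * N))) +
        2 * (2 * Real.pi * (120 * (R * N))) := by linarith
    _ = 4 * Real.pi * ((120 + 2160 * (K ^ 2 + (m : ℝ) ^ 2 + 4)) * (R * N)) := by ring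
    _ ≤ 4 * Real.pi * ((120 + 2160 * (K ^ 2 + 5)) * ((m : ℝ) + 1) ^ 2 * (R * N)) :=
        mul_le_mul_of_nonneg_left hfin2 (by positivity)
    _ = _ := by ring

end Pool.Agent.Q176.NE
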