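import Mathlib
import Pool.Agent.H438R2.DL.Four

/-!
# Job MS, general lemmas: windows and the Plancherel theorem
-/

set_option autoImplicit false

open MeasureTheory Filter Topology Finset
open scoped FourierTransform

namespace Pool.Agent.Q176.NE

lemma sq_sum (K : ℕ) : ∑ k ∈ range (K + 1), (1 : ℝ) / (1 + k) ^ 2 ≤ 2 - 1 / ((K : ℝ) + 1) := by
  induction K with
  | zero => norm_num
  | succ K ih =>
    rw [sum_range_succ]
    have h1 : (1 : ℝ) / (1 + ((K + 1 : ℕ) : ℝ)) ^ 2 ≤ 1 / (K + 1) - 1 / (((K + 1 : ℕ) : ℝ) + 1) := by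
      push_cast
      have hK : (0 : ℝ) ≤ K := Nat.cast_nonneg K
      rw [div_sub_div _ _ (by positivity) (by positivity), div_le_div_iff₀ (by positivity)
        (by positivity)]
      nlinarith
    push_cast at h1 ⊢
    linarith

lemma sq_sum' (K : ℕ) : ∑ k ∈ range K, (1 : ℝ) / (1 + k) ^ 2 ≤ 2 := by
  have h1 : ∑ k ∈ range K, (1 : ℝ) / (1 + k) ^ 2 ≤ ∑ k ∈ range (K + 1), (1 : ℝ) / (1 + k) ^ 2 :=
    sum_le_sum_of_subset_of_nonneg (range_mono (Nat.le_succ K)) fun _ _ _ => by positivity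
  have h2 := sq_sum K
  have h3 : (0 : ℝ) ≤ 1 / ((K : ℝ) + 1) := by positivity
  linarith

lemma win_le {b : ℝ} (hb : 1 ≤ b) (k : ℕ) :
    (3 / 2 + 2 * (k : ℝ)) ^ (-(b + 1)) ≤ (3 / 2 : ℝ) ^ (-(b + 1)) * (1 / (1 + k) ^ 2) := by
  have hk : (0 : ℝ) ≤ k := Nat.cast_nonneg k
  have h1 : (3 / 2 : ℝ) * (1 + k) ≤ 3 / 2 + 2 * k := by linarith
  have h2 : (3 / 2 + 2 * (k : ℝ)) ^ (-(b + 1)) ≤ ((3 / 2 : ℝ) * (1 + k)) ^ (-(b + 1)) :=
    Real.rpow_le_rpow_of_nonpos (by positivity) h1 (by linarith)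
  refine h2.trans ?_
  rw [Real.mul_rpow (by norm_num) (by positivity)]
  refine mul_le_mul_of_nonneg_left ?_ (by positivity)
  have h3 : (1 + (k : ℝ)) ^ (-(b + 1)) ≤ (1 + (k : ℝ)) ^ (-2 : ℝ) :=
    Real.rpow_le_rpow_of_exponent_le (by linarith) (by linarith)
  refine h3.trans (le_of_eq ?_)
  rw [Real.rpow_neg (by positivity), one_div]
  norm_num

/-- weighted integrals on finitely many windows -/
lemma win_int {G : ℝ → ℝ} (hG : Continuous G) (hG0 : ∀ x, 0 ≤ G x) {B b : ℝ} (hb : 1 ≤ b)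
    (hB : ∀ A, ∫ x in A..(A + 2), G x ≤ B) (K : ℕ) :
    ∫ x in (3 / 2 : ℝ)..(3 / 2 + 2 * K), G x * x ^ (-(b + 1)) ≤ 2 * (3 / 2 : ℝ) ^ (-(b + 1)) * B := by
  have hB0 : 0 ≤ B := (intervalIntegral.integral_nonneg (by norm_num) fun x _ => hG0 x).trans (hB 0)
  have hcont : ContinuousOn (fun x : ℝ => G x * x ^ (-(b + 1))) (Set.Ioi 0) := by
    refine hG.continuousOn.mul ?_
    exact fun x hx => (Real.continuousAt_rpow_const _ _ (Or.inl (ne_of_gt hx))).continuousWithinAt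
  have hint : ∀ u v : ℝ, 0 < u → 0 < v → IntervalIntegrable (fun x : ℝ => G x * x ^ (-(b + 1)))
      volume u v := by
    intro u v hu hv
    refine (hcont.mono ?_).intervalIntegrable
    intro x hx
    rw [Set.mem_uIcc] at hx
    rcases hx with h | h
    · exact lt_of_lt_of_le hu h.1
    · exact lt_of_lt_of_le hv h.1
  have key : ∫ x in (3 / 2 : ℝ)..(3 / 2 + 2 * K), G x * x ^ (-(b + 1)) ≤
      ∑ k ∈ range K, (3 / 2 + 2 * (k : ℝ)) ^ (-(b + 1)) * B := by
    induction K with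
    | zero => simp
    | succ K ih =>
      rw [sum_range_succ]
      have hK : (0 : ℝ) ≤ K := Nat.cast_nonneg K
      rw [← intervalIntegral.integral_add_adjacent_intervals (b := 3 / 2 + 2 * (K : ℝ))
        (hint _ _ (by norm_num) (by positivity)) (hint _ _ (by positivity) (by positivity))]
      refine add_le_add ih ?_
      have e : (3 / 2 + 2 * ((K + 1 : ℕ) : ℝ)) = 3 / 2 + 2 * (K : ℝ) + 2 := by push_cast; ring
      rw [e]
      calc ∫ x in (3 / 2 + 2 * (K : ℝ))..(3 / 2 + 2 * (K : ℝ) + 2), G x * x ^ (-(b + 1))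
          ≤ ∫ x in (3 / 2 + 2 * (K : ℝ))..(3 / 2 + 2 * (K : ℝ) + 2),
              G x * (3 / 2 + 2 * (K : ℝ)) ^ (-(b + 1)) := by
            refine intervalIntegral.integral_mono_on (by linarith)
              (hint _ _ (by positivity) (by positivity))
              ((hG.mul continuous_const).intervalIntegrable _ _) fun x hx => ?_
            refine mul_le_mul_of_nonneg_left ?_ (hG0 x)
            exact Real.rpow_le_rpow_of_nonpos (by positivity) hx.1 (by linarith)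
        _ = (3 / 2 + 2 * (K : ℝ)) ^ (-(b + 1)) *
            ∫ x in (3 / 2 + 2 * (K : ℝ))..(3 / 2 + 2 * (K : ℝ) + 2), G x := by
            rw [intervalIntegral.integral_mul_const, mul_comm]
        _ ≤ (3 / 2 + 2 * (K : ℝ)) ^ (-(b + 1)) * B :=
            mul_le_mul_of_nonneg_left (hB _) (by positivity)
  refine key.trans ?_
  calc ∑ k ∈ range K, (3 / 2 + 2 * (k : ℝ)) ^ (-(b + 1)) * B
      ≤ ∑ k ∈ range K, (3 / 2 : ℝ) ^ (-(b + 1)) * (1 / (1 + k) ^ 2) * B :=
        sum_le_sum fun k _ => mul_le_mul_of_nonneg_right (win_le hb k) hB0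
    _ = (3 / 2 : ℝ) ^ (-(b + 1)) * B * ∑ k ∈ range K, (1 : ℝ) / (1 + k) ^ 2 := by
        rw [mul_sum]
        exact sum_congr rfl fun k _ => by ring
    _ ≤ (3 / 2 : ℝ) ^ (-(b + 1)) * B * 2 :=
        mul_le_mul_of_nonneg_left (sq_sum' K) (by positivity)
    _ = _ := by ring

/-- in exponential coordinates -/
lemma win_exp {G : ℝ → ℝ} (hG : Continuous G) (hG0 : ∀ x, 0 ≤ G x) {B b : ℝ} (hb : 1 ≤ b)
    (hB : ∀ A, ∫ x in A..(A + 2), G x ≤ B) (K : ℕ) :
    ∫ t in (Real.log (3 / 2))..(Real.log (3 / 2 + 2 * K)), G (Real.exp t) * Real.exp (-(b * t)) ≤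
      2 * (3 / 2 : ℝ) ^ (-(b + 1)) * B := by
  have hK : (0 : ℝ) ≤ K := Nat.cast_nonneg K
  have h1 : ∫ t in (Real.log (3 / 2))..(Real.log (3 / 2 + 2 * K)),
      G (Real.exp t) * Real.exp (-(b * t)) =
      ∫ x in (3 / 2 : ℝ)..(3 / 2 + 2 * K), G x * x ^ (-(b + 1)) := by
    have h2 := intervalIntegral.integral_comp_mul_deriv' (a := Real.log (3 / 2))
      (b := Real.log (3 / 2 + 2 * K)) (f := Real.exp) (f' := Real.exp)
      (g := fun x : ℝ => G x * x ^ (-(b + 1))) (fun x _ => Real.hasDerivAt_exp x)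
      Real.continuous_exp.continuousOn (by
        refine hG.continuousOn.mul ?_
        rintro x ⟨y, _, rfl⟩
        exact (Real.continuousAt_rpow_const _ _ (Or.inl (Real.exp_pos y).ne')).continuousWithinAt)
    rw [Real.exp_log (by norm_num), Real.exp_log (by positivity)] at h2
    rw [← h2]
    refine intervalIntegral.integral_congr fun t _ => ?_
    simp only [Function.comp]
    rw [mul_assoc]
    congr 1
    rw [← Real.exp_mul, ← Real.exp_add]
    congr 1
    ring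
  rw [h1]
  exact win_int hG hG0 hb hB K

/-- the mean square of a function dominated by `G (exp t) exp (-b t)` -/
lemma ms_le {G : ℝ → ℝ} (hG : Continuous G) (hG0 : ∀ x, 0 ≤ G x) {B b : ℝ} (hb : 1 ≤ b)
    (hB : ∀ A, ∫ x in A..(A + 2), G x ≤ B) {h : ℝ → ℂ} (hc : Continuous h)
    (h0 : ∀ t, t ≤ Real.log (3 / 2) → h t = 0) (hint : Integrable fun t => ‖h t‖ ^ 2)
    (hle : ∀ t, Real.log (3 / 2) ≤ t → ‖h t‖ ^ 2 ≤ G (Real.exp t) * Real.exp (-(b * t))) :
    ∫ t, ‖h t‖ ^ 2 ≤ 2 * (3 / 2 : ℝ) ^ (-(b + 1)) * B := by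
  have h1 : ∫ t, ‖h t‖ ^ 2 = ∫ t in Set.Ioi (Real.log (3 / 2)), ‖h t‖ ^ 2 := by
    rw [setIntegral_eq_integral_of_forall_compl_eq_zero]
    intro t ht
    rw [h0 t (by simpa using ht)]
    simp
  rw [h1]
  have hlim : Tendsto (fun K : ℕ => ∫ t in (Real.log (3 / 2))..(Real.log (3 / 2 + 2 * K)), ‖h t‖ ^ 2)
      atTop (𝓝 (∫ t in Set.Ioi (Real.log (3 / 2)), ‖h t‖ ^ 2)) := by
    refine intervalIntegral_tendsto_integral_Ioi _ hint.integrableOn ?_
    refine Real.tendsto_log_atTop.comp ?_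
    refine tendsto_atTop_add_const_left _ _ ?_
    exact Tendsto.const_mul_atTop (by norm_num) tendsto_natCast_atTop_atTop
  refine le_of_tendsto' hlim fun K => ?_
  refine le_trans ?_ (win_exp hG hG0 hb hB K)
  have hK : (0 : ℝ) ≤ K := Nat.cast_nonneg K
  refine intervalIntegral.integral_mono_on (Real.log_le_log (by norm_num) (by linarith))
    ((hc.norm.pow 2).intervalIntegrable _ _) ?_ fun t ht => hle t ht.1
  refine Continuous.intervalIntegrable ?_ _ _
  exact (hG.comp Real.continuous_exp).mul (by fun_prop)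

/-- Plancherel on a piece of a vertical line -/
lemma planch_piece {h : ℝ → ℂ} (h1 : Integrable h) (h2 : MemLp h 2) {s : ℝ} (hs : s = 1 ∨ s = -1) :
    Continuous (fun τ : ℝ => ∫ t, h t * Complex.exp (((s * τ : ℝ) : ℂ) * Complex.I * t)) ∧
    ∀ a b : ℝ, a ≤ b →
      ∫ τ in a..b, ‖∫ t, h t * Complex.exp (((s * τ : ℝ) : ℂ) * Complex.I * t)‖ ^ 2 ≤
      2 * Real.pi * ∫ t, ‖h t‖ ^ 2 := by
  obtain ⟨hp1, hp2⟩ := Pool.Agent.H438R2.DL.planch h h1 h2
  have hcont : Continuous (𝓕 h) :=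
    VectorFourier.fourierIntegral_continuous Real.continuous_fourierChar
      (innerSL ℝ).continuous₂ h1
  have heq : ∀ τ : ℝ, ∫ t, h t * Complex.exp (((s * τ : ℝ) : ℂ) * Complex.I * t) =
      𝓕 h (-(s / (2 * Real.pi)) * τ) := by
    intro τ
    rw [Real.fourier_real_eq_integral_exp_smul]
    refine integral_congr_ae (Filter.Eventually.of_forall fun t => ?_)
    simp only [smul_eq_mul]
    rw [mul_comm]
    congr 2
    push_cast
    have hpi : (Real.pi : ℂ) ≠ 0 := by exact_mod_cast Real.pi_ne_zero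
    field_simp
  refine ⟨?_, ?_⟩
  · simp only [heq]
    fun_prop
  · intro a b hab
    simp only [heq]
    have hpi := Real.pi_pos
    have hs0 : -(s / (2 * Real.pi)) ≠ 0 := by
      rcases hs with rfl | rfl
      · simp [Real.pi_ne_zero]
      · simp [Real.pi_ne_zero]
    have h3 : ∫ τ in a..b, ‖𝓕 h (-(s / (2 * Real.pi)) * τ)‖ ^ 2 ≤
        ∫ τ, ‖𝓕 h (-(s / (2 * Real.pi)) * τ)‖ ^ 2 := by
      rw [intervalIntegral.integral_of_le hab]
      refine setIntegral_le_integral ?_ (Filter.Eventually.of_forall fun _ => by positivity)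
      exact hp1.comp_mul_left' hs0
    refine h3.trans (le_of_eq ?_)
    rw [Measure.integral_comp_mul_left (fun v => ‖𝓕 h v‖ ^ 2), hp2, smul_eq_mul]
    congr 1
    rcases hs with rfl | rfl
    · rw [inv_neg, abs_neg, abs_of_pos (by positivity)]
      simp
    · rw [neg_div, neg_neg, abs_of_pos (by positivity)]
      simp

end Pool.Agent.Q176.NE
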