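import Pool.Agent.Q286.NE.Defs
import Pool.Agent.Q176.NE.MsA

/-!
# Job MS: the outer part of the Mellin transform of a general function
-/

set_option autoImplicit false

open MeasureTheory Filter Topology Finset
open scoped FourierTransform

namespace Pool.Agent.Q176.NE

open Pool.Agent.Q286.NE Pool.Agent.Q286.AP

/-- length of the transition -/
noncomputable def LL : ℝ := Real.log 2 - Real.log (3 / 2)

lemma LL_pos : 0 < LL := by
  unfold LL
  have := Real.log_lt_log (by norm_num : (0 : ℝ) < 3 / 2) (by norm_num : (3 / 2 : ℝ) < 2)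
  linarith

lemma log32_pos : 0 < Real.log (3 / 2) := Real.log_pos (by norm_num)

/-- derivative of `psi` -/
noncomputable def psi' (t : ℝ) : ℝ := sT' ((t - Real.log (3 / 2)) / LL) / LL

lemma psi_hd (t : ℝ) : HasDerivAt psi (psi' t) t := by
  have h1 : HasDerivAt (fun t : ℝ => (t - Real.log (3 / 2)) / LL) (1 / LL) t :=
    ((hasDerivAt_id t).sub_const _).div_const _
  have h2 := (sT_hd ((t - Real.log (3 / 2)) / LL)).comp t h1
  refine h2.congr_deriv ?_
  unfold psi'
  ring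

lemma psi_cont : Continuous psi := continuous_iff_continuousAt.2 fun t => (psi_hd t).continuousAt

lemma psi'_cont : Continuous psi' := by
  unfold psi'
  exact (sT'_cont.comp (by fun_prop)).div_const _

lemma psi_abs (t : ℝ) : |psi t| ≤ 1 := sT_abs _

lemma psi_zero {t : ℝ} (ht : t ≤ Real.log (3 / 2)) : psi t = 0 := by
  unfold psi
  apply Real.smoothTransition.zero_of_nonpos
  exact div_nonpos_of_nonpos_of_nonneg (by linarith) LL_pos.le

lemma sT'_zero {x : ℝ} (hx : x ≤ 0) : sT' x = 0 := by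
  unfold sT'
  apply IsLocalMin.deriv_eq_zero
  refine Filter.Eventually.of_forall fun y => ?_
  rw [Real.smoothTransition.zero_of_nonpos hx]
  exact Real.smoothTransition.nonneg y

lemma psi'_zero {t : ℝ} (ht : t ≤ Real.log (3 / 2)) : psi' t = 0 := by
  unfold psi'
  rw [sT'_zero (div_nonpos_of_nonpos_of_nonneg (by linarith) LL_pos.le), zero_div]

lemma psi'_bd : ∃ K : ℝ, 0 ≤ K ∧ ∀ t, |psi' t| ≤ K := by
  obtain ⟨K, hK0, hK⟩ := sT'_bd
  refine ⟨K / LL, div_nonneg hK0 LL_pos.le, fun t => ?_⟩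
  unfold psi'
  rw [abs_div, abs_of_pos LL_pos]
  exact div_le_div_of_nonneg_right (hK _) LL_pos.le

/-- integrability of exponentially decreasing functions on the half line -/
lemma dec {h : ℝ → ℂ} (hc : Continuous h) (h0 : ∀ t, t ≤ Real.log (3 / 2) → h t = 0) {M : ℝ}
    (hM : ∀ t, Real.log (3 / 2) ≤ t → ‖h t‖ ≤ M * Real.exp (-t)) :
    Integrable h ∧ MemLp h 2 ∧ Integrable fun t => ‖h t‖ ^ 2 := by
  have hi1 : Integrable (fun t => (Set.Ioi (Real.log (3 / 2))).indicator
      (fun t => M * Real.exp (-t)) t) := by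
    rw [integrable_indicator_iff measurableSet_Ioi]
    exact (integrableOn_exp_neg_Ioi _).const_mul M
  have hi2 : Integrable (fun t => (Set.Ioi (Real.log (3 / 2))).indicator
      (fun t => M ^ 2 * Real.exp (-(2 * t))) t) := by
    rw [integrable_indicator_iff measurableSet_Ioi]
    refine Integrable.const_mul ?_ _
    have := integrableOn_exp_mul_Ioi (a := -2) (by norm_num) (Real.log (3 / 2))
    refine this.congr (Filter.Eventually.of_forall fun t => ?_)
    simp only
    congr 1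
    ring
  have hint : Integrable h := by
    refine Integrable.mono' hi1 hc.aestronglyMeasurable (Filter.Eventually.of_forall fun t => ?_)
    by_cases ht : t ≤ Real.log (3 / 2)
    · rw [h0 t ht, norm_zero, Set.indicator_of_notMem (by simpa using ht)]
    · rw [Set.indicator_of_mem (by simpa using ht)]
      exact hM t (not_le.1 ht).le
  have hsq : Integrable fun t => ‖h t‖ ^ 2 := by
    refine Integrable.mono' hi2 (hc.norm.pow 2).aestronglyMeasurable
      (Filter.Eventually.of_forall fun t => ?_)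
    rw [Real.norm_of_nonneg (by positivity)]
    by_cases ht : t ≤ Real.log (3 / 2)
    · rw [h0 t ht, norm_zero, Set.indicator_of_notMem (by simpa using ht)]
      norm_num
    · rw [Set.indicator_of_mem (by simpa using ht)]
      have h1 := pow_le_pow_left₀ (norm_nonneg _) (hM t (not_le.1 ht).le) 2
      refine h1.trans (le_of_eq ?_)
      rw [mul_pow, ← Real.exp_nat_mul]
      congr 2
      push_cast
      ring
  exact ⟨hint, (memLp_two_iff_integrable_sq_norm hc.aestronglyMeasurable).2 hsq, hsq⟩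

/-- the outer part for a general function -/
noncomputable def Em (m : ℕ) (g : ℝ → ℝ) (w : ℂ) : ℂ :=
  ∫ t : ℝ, ((psi t * g (Real.exp t) * Real.exp (-(m * t)) : ℝ) : ℂ) * Complex.exp (w * t)

section one

variable {m : ℕ} {ξ : ℝ} {g : ℝ → ℝ}

/-- the function `h` -/
noncomputable def hh (m : ℕ) (ξ : ℝ) (g : ℝ → ℝ) (t : ℝ) : ℂ :=
  ((psi t * g (Real.exp t) * Real.exp (-((m - ξ) * t)) : ℝ) : ℂ)

lemma hh_eq (m : ℕ) (ξ y : ℝ) (g : ℝ → ℝ) (t : ℝ) :
    ((psi t * g (Real.exp t) * Real.exp (-(m * t)) : ℝ) : ℂ) *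
      Complex.exp (((ξ : ℂ) + (y : ℂ) * Complex.I) * t) =
    hh m ξ g t * Complex.exp ((y : ℂ) * Complex.I * t) := by
  unfold hh
  push_cast
  have e1 : Complex.exp (((ξ : ℂ) + (y : ℂ) * Complex.I) * t) =
      Complex.exp ((ξ : ℂ) * t) * Complex.exp ((y : ℂ) * Complex.I * t) := by
    rw [← Complex.exp_add]
    congr 1
    ring
  have e2 : Complex.exp (-(((m : ℂ) - ξ) * t)) = Complex.exp (-((m : ℂ) * t)) *
      Complex.exp ((ξ : ℂ) * t) := by
    rw [← Complex.exp_add]
    congr 1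
    ring
  rw [e1, e2]
  ring

lemma Em_eq (m : ℕ) (ξ y : ℝ) (g : ℝ → ℝ) : Em m g ((ξ : ℂ) + (y : ℂ) * Complex.I) =
    ∫ t, hh m ξ g t * Complex.exp ((y : ℂ) * Complex.I * t) :=
  integral_congr_ae (Filter.Eventually.of_forall fun t => hh_eq m ξ y g t)

lemma hh_cont (hg : Continuous g) : Continuous (hh m ξ g) := by
  unfold hh
  refine Complex.continuous_ofReal.comp ?_
  exact (psi_cont.mul (hg.comp Real.continuous_exp)).mul (by fun_prop)

lemma hh_zero {t : ℝ} (ht : t ≤ Real.log (3 / 2)) : hh m ξ g t = 0 := by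
  unfold hh
  rw [psi_zero ht]
  simp

lemma exp_le (hξ : ξ + 2 ≤ m) {t : ℝ} (ht : 0 ≤ t) :
    Real.exp (-((m - ξ) * t)) ≤ Real.exp (-t) * Real.exp (-t) := by
  rw [← Real.exp_add, Real.exp_le_exp]
  nlinarith

lemma hh_dec (hξ : ξ + 2 ≤ m) {M : ℝ} (hM : ∀ x, |g x| ≤ M) (t : ℝ)
    (ht : Real.log (3 / 2) ≤ t) : ‖hh m ξ g t‖ ≤ M * Real.exp (-t) := by
  have ht0 : 0 ≤ t := log32_pos.le.trans ht
  have hM0 : 0 ≤ M := (abs_nonneg _).trans (hM 0)
  unfold hh
  rw [Complex.norm_real, Real.norm_eq_abs, abs_mul, abs_mul, abs_of_pos (Real.exp_pos _)]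
  have h1 : |psi t| * |g (Real.exp t)| ≤ 1 * M :=
    mul_le_mul (psi_abs t) (hM _) (abs_nonneg _) zero_le_one
  have h2 : Real.exp (-t) ≤ 1 := Real.exp_le_one_iff.2 (by linarith)
  have h3 : Real.exp (-((m - ξ) * t)) ≤ Real.exp (-t) :=
    (exp_le hξ ht0).trans (mul_le_of_le_one_right (Real.exp_pos _).le h2)
  calc |psi t| * |g (Real.exp t)| * Real.exp (-((m - ξ) * t)) ≤ (1 * M) * Real.exp (-t) :=
        mul_le_mul h1 h3 (Real.exp_pos _).le (by positivity)
    _ = M * Real.exp (-t) := by ring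

/-- the direct estimate -/
lemma high (hξ : ξ + 2 ≤ m) (hg : Continuous g) {M : ℝ} (hM : ∀ x, |g x| ≤ M) {B : ℝ}
    (hB : ∀ A, ∫ x in A..(A + 2), g x ^ 2 ≤ B) {s : ℝ} (hs : s = 1 ∨ s = -1) :
    Continuous (fun τ : ℝ => Em m g ((ξ : ℂ) + ((s * τ : ℝ) : ℂ) * Complex.I)) ∧
    ∀ a b : ℝ, a ≤ b → ∫ τ in a..b, ‖Em m g ((ξ : ℂ) + ((s * τ : ℝ) : ℂ) * Complex.I)‖ ^ 2 ≤
      2 * Real.pi * (2 * (3 / 2 : ℝ) ^ (-(2 * (m - ξ) + 1)) * B) := by
  obtain ⟨i1, i2, i3⟩ := dec (hh_cont (m := m) (ξ := ξ) hg) (fun t ht => hh_zero ht) (hh_dec hξ hM)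
  obtain ⟨p1, p2⟩ := planch_piece i1 i2 hs
  have e : ∀ τ : ℝ, Em m g ((ξ : ℂ) + ((s * τ : ℝ) : ℂ) * Complex.I) =
      ∫ t, hh m ξ g t * Complex.exp (((s * τ : ℝ) : ℂ) * Complex.I * t) := fun τ => Em_eq m ξ _ g
  refine ⟨?_, ?_⟩
  · simp only [e]
    exact p1
  · intro a b hab
    simp only [e]
    refine (p2 a b hab).trans ?_
    refine mul_le_mul_of_nonneg_left ?_ (by positivity)
    refine ms_le (G := fun x => g x ^ 2) (hg.pow 2) (fun x => sq_nonneg _) (by linarith) hB
      (hh_cont hg) (fun t ht => hh_zero ht) i3 fun t ht => ?_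
    unfold hh
    rw [Complex.norm_real, Real.norm_eq_abs, sq_abs, mul_pow, mul_pow, ← Real.exp_nat_mul]
    have h1 : psi t ^ 2 ≤ 1 := by
      rw [← sq_abs]
      exact pow_le_one₀ (abs_nonneg _) (psi_abs t)
    have e2 : ((2 : ℕ) : ℝ) * -((m - ξ) * t) = -(2 * (m - ξ) * t) := by push_cast; ring
    rw [e2]
    refine mul_le_mul_of_nonneg_right ?_ (Real.exp_pos _).le
    exact mul_le_of_le_one_left (sq_nonneg _) h1

lemma Em_add (hξ : ξ + 2 ≤ m) {f : ℝ → ℝ} (hg : Continuous g) {M M' : ℝ} (hM : ∀ x, |g x| ≤ M)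
    (hf : Continuous f) (hM' : ∀ x, |f x| ≤ M') (y : ℝ) :
    Em m (fun x => g x + f x) ((ξ : ℂ) + (y : ℂ) * Complex.I) =
      Em m g ((ξ : ℂ) + (y : ℂ) * Complex.I) + Em m f ((ξ : ℂ) + (y : ℂ) * Complex.I) := by
  have hunit : ∀ t : ℝ, ‖Complex.exp ((y : ℂ) * Complex.I * t)‖ = 1 := by
    intro t
    rw [Complex.norm_exp]
    simp
  have hecont : Continuous fun t : ℝ => Complex.exp ((y : ℂ) * Complex.I * t) := by fun_prop
  obtain ⟨i1, -, -⟩ := dec (hh_cont (m := m) (ξ := ξ) hg) (fun t ht => hh_zero ht) (hh_dec hξ hM)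
  obtain ⟨j1, -, -⟩ := dec (hh_cont (m := m) (ξ := ξ) hf) (fun t ht => hh_zero ht) (hh_dec hξ hM')
  have k1 : Integrable fun t => hh m ξ g t * Complex.exp ((y : ℂ) * Complex.I * t) :=
    i1.mul_bdd (c := 1) hecont.aestronglyMeasurable
      (Filter.Eventually.of_forall fun t => (hunit t).le)
  have k2 : Integrable fun t => hh m ξ f t * Complex.exp ((y : ℂ) * Complex.I * t) :=
    j1.mul_bdd (c := 1) hecont.aestronglyMeasurable
      (Filter.Eventually.of_forall fun t => (hunit t).le)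
  rw [Em_eq, Em_eq, Em_eq, ← integral_add k1 k2]
  refine integral_congr_ae (Filter.Eventually.of_forall fun t => ?_)
  simp only [hh]
  push_cast
  ring

end one

section two

variable {m : ℕ} {ξ : ℝ} {g g' : ℝ → ℝ}

/-- derivative of `psi t * g (exp t) * exp (-m t)`, times `exp (m t)` -/
noncomputable def dd (m : ℕ) (g g' : ℝ → ℝ) (t : ℝ) : ℝ :=
  psi' t * g (Real.exp t) + psi t * (g' (Real.exp t) * Real.exp t) - m * (psi t * g (Real.exp t))

/-- the function `h₁` -/
noncomputable def h1 (m : ℕ) (ξ : ℝ) (g g' : ℝ → ℝ) (t : ℝ) : ℂ :=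
  ((dd m g g' t * Real.exp (-((m - ξ) * t)) : ℝ) : ℂ)

lemma dd_cont (hg : Continuous g) (hg' : Continuous g') : Continuous (dd m g g') := by
  unfold dd
  have e1 := hg.comp Real.continuous_exp
  have e2 := hg'.comp Real.continuous_exp
  exact ((psi'_cont.mul e1).add (psi_cont.mul (e2.mul Real.continuous_exp))).sub
    (continuous_const.mul (psi_cont.mul e1))

lemma h1_cont (hg : Continuous g) (hg' : Continuous g') : Continuous (h1 m ξ g g') := by
  unfold h1
  refine Complex.continuous_ofReal.comp ?_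
  exact (dd_cont hg hg').mul (by fun_prop)

lemma dd_zero {t : ℝ} (ht : t ≤ Real.log (3 / 2)) : dd m g g' t = 0 := by
  unfold dd
  rw [psi_zero ht, psi'_zero ht]
  simp

lemma h1_zero {t : ℝ} (ht : t ≤ Real.log (3 / 2)) : h1 m ξ g g' t = 0 := by
  unfold h1
  rw [dd_zero ht]
  simp

lemma dd_abs {K M M' : ℝ} (hK : ∀ t, |psi' t| ≤ K) (hM : ∀ x, |g x| ≤ M) (hM' : ∀ x, |g' x| ≤ M')
    {t : ℝ} (ht : 0 ≤ t) : |dd m g g' t| ≤ (K * M + M' + m * M) * Real.exp t := by
  have hK0 : 0 ≤ K := (abs_nonneg _).trans (hK 0)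
  have hM0 : 0 ≤ M := (abs_nonneg _).trans (hM 0)
  have hM0' : 0 ≤ M' := (abs_nonneg _).trans (hM' 0)
  have he : 1 ≤ Real.exp t := Real.one_le_exp ht
  unfold dd
  have a1 : |psi' t * g (Real.exp t)| ≤ K * M * Real.exp t := by
    rw [abs_mul]
    have := mul_le_mul (hK t) (hM (Real.exp t)) (abs_nonneg _) hK0
    nlinarith [mul_nonneg hK0 hM0]
  have a2 : |psi t * (g' (Real.exp t) * Real.exp t)| ≤ M' * Real.exp t := by
    rw [abs_mul, abs_mul, abs_of_pos (Real.exp_pos t)]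
    have h2 : |g' (Real.exp t)| * Real.exp t ≤ M' * Real.exp t :=
      mul_le_mul_of_nonneg_right (hM' _) (Real.exp_pos _).le
    calc |psi t| * (|g' (Real.exp t)| * Real.exp t) ≤ 1 * (M' * Real.exp t) :=
          mul_le_mul (psi_abs t) h2 (by positivity) zero_le_one
      _ = _ := one_mul _
  have a3 : |(m : ℝ) * (psi t * g (Real.exp t))| ≤ m * M * Real.exp t := by
    rw [abs_mul, abs_mul, Nat.abs_cast]
    have h2 : |psi t| * |g (Real.exp t)| ≤ 1 * M :=
      mul_le_mul (psi_abs t) (hM _) (abs_nonneg _) zero_le_one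
    have h3 : (m : ℝ) * (|psi t| * |g (Real.exp t)|) ≤ m * M := by
      refine mul_le_mul_of_nonneg_left (by linarith) (Nat.cast_nonneg m)
    have h4 : (0 : ℝ) ≤ m * M := by positivity
    nlinarith
  calc |psi' t * g (Real.exp t) + psi t * (g' (Real.exp t) * Real.exp t) -
        m * (psi t * g (Real.exp t))|
      ≤ |psi' t * g (Real.exp t) + psi t * (g' (Real.exp t) * Real.exp t)| +
        |(m : ℝ) * (psi t * g (Real.exp t))| := abs_sub _ _
    _ ≤ |psi' t * g (Real.exp t)| + |psi t * (g' (Real.exp t) * Real.exp t)| +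
        |(m : ℝ) * (psi t * g (Real.exp t))| := by
        gcongr
        exact abs_add_le _ _
    _ ≤ _ := by linarith

lemma h1_dec (hξ : ξ + 2 ≤ m) {K M M' : ℝ} (hK : ∀ t, |psi' t| ≤ K) (hM : ∀ x, |g x| ≤ M)
    (hM' : ∀ x, |g' x| ≤ M') (t : ℝ) (ht : Real.log (3 / 2) ≤ t) :
    ‖h1 m ξ g g' t‖ ≤ (K * M + M' + m * M) * Real.exp (-t) := by
  have ht0 : 0 ≤ t := log32_pos.le.trans ht
  have hK0 : 0 ≤ K := (abs_nonneg _).trans (hK 0)
  have hM0 : 0 ≤ M := (abs_nonneg _).trans (hM 0)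
  have hM0' : 0 ≤ M' := (abs_nonneg _).trans (hM' 0)
  unfold h1
  rw [Complex.norm_real, Real.norm_eq_abs, abs_mul, abs_of_pos (Real.exp_pos (-((m - ξ) * t)))]
  have h3 := exp_le hξ ht0
  calc |dd m g g' t| * Real.exp (-((m - ξ) * t)) ≤
        ((K * M + M' + m * M) * Real.exp t) * (Real.exp (-t) * Real.exp (-t)) :=
        mul_le_mul (dd_abs hK hM hM' ht0) h3 (Real.exp_pos _).le (by positivity)
    _ = (K * M + M' + m * M) * Real.exp (-t) * (Real.exp t * Real.exp (-t)) := by ring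
    _ = (K * M + M' + m * M) * Real.exp (-t) := by
        rw [← Real.exp_add, add_neg_cancel, Real.exp_zero, mul_one]

/-- integration by parts -/
lemma parts (hξ : ξ + 2 ≤ m) (hgd : ∀ x, HasDerivAt g (g' x) x) (hg' : Continuous g')
    {M M' : ℝ} (hM : ∀ x, |g x| ≤ M) (hM' : ∀ x, |g' x| ≤ M') {y : ℝ} (hy : y ≠ 0) :
    Em m g ((ξ : ℂ) + (y : ℂ) * Complex.I) =
      -(((ξ : ℂ) + (y : ℂ) * Complex.I)⁻¹ *
        ∫ t, h1 m ξ g g' t * Complex.exp ((y : ℂ) * Complex.I * t)) := by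
  obtain ⟨K, hK0, hK⟩ := psi'_bd
  have hg : Continuous g := continuous_iff_continuousAt.2 fun x => (hgd x).continuousAt
  obtain ⟨w, hw⟩ : ∃ w : ℂ, w = (ξ : ℂ) + (y : ℂ) * Complex.I := ⟨_, rfl⟩
  have hw0 : w ≠ 0 := by
    intro h
    have := congrArg Complex.im h
    rw [hw] at this
    simp at this
    exact hy this
  have hunit : ∀ t : ℝ, ‖Complex.exp ((y : ℂ) * Complex.I * t)‖ = 1 := by
    intro t
    rw [Complex.norm_exp]
    simp
  have hecont : Continuous fun t : ℝ => Complex.exp ((y : ℂ) * Complex.I * t) := by fun_prop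
  obtain ⟨i1, -, -⟩ := dec (hh_cont (m := m) (ξ := ξ) hg) (fun t ht => hh_zero ht) (hh_dec hξ hM)
  obtain ⟨j1, -, -⟩ := dec (h1_cont (m := m) (ξ := ξ) hg hg') (fun t ht => h1_zero ht)
    (h1_dec hξ hK hM hM')
  have k1 : Integrable fun t => hh m ξ g t * Complex.exp ((y : ℂ) * Complex.I * t) :=
    i1.mul_bdd (c := 1) hecont.aestronglyMeasurable
      (Filter.Eventually.of_forall fun t => (hunit t).le)
  have k2 : Integrable fun t => h1 m ξ g g' t * Complex.exp ((y : ℂ) * Complex.I * t) :=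
    j1.mul_bdd (c := 1) hecont.aestronglyMeasurable
      (Filter.Eventually.of_forall fun t => (hunit t).le)
  let u : ℝ → ℂ := fun t => ((psi t * g (Real.exp t) * Real.exp (-(m * t)) : ℝ) : ℂ)
  let u' : ℝ → ℂ := fun t => ((dd m g g' t * Real.exp (-(m * t)) : ℝ) : ℂ)
  let v : ℝ → ℂ := fun t => w⁻¹ * Complex.exp (w * t)
  let v' : ℝ → ℂ := fun t => Complex.exp (w * t)
  have hu : ∀ t, HasDerivAt u (u' t) t := by
    intro t
    have e1 := (psi_hd t).mul ((hgd (Real.exp t)).comp t (Real.hasDerivAt_exp t))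
    have e2 : HasDerivAt (fun t : ℝ => Real.exp (-(m * t))) (Real.exp (-(m * t)) * (-m)) t := by
      have h2 : HasDerivAt (fun t : ℝ => -((m : ℝ) * t)) (-((m : ℝ) * 1)) t :=
        ((hasDerivAt_id t).const_mul (m : ℝ)).neg
      exact h2.exp.congr_deriv (by ring)
    have e3 := (e1.mul e2).ofReal_comp
    refine e3.congr_deriv ?_
    simp only [u', dd, Function.comp, Pi.mul_apply]
    push_cast
    ring
  have hv : ∀ t, HasDerivAt v (v' t) t := by
    intro t
    have e1 : HasDerivAt (fun t : ℝ => Complex.exp (w * t)) (Complex.exp (w * t) * w) t := by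
      have h2 : HasDerivAt (fun t : ℝ => w * (t : ℂ)) (w * 1) t :=
        ((hasDerivAt_id t).ofReal_comp).const_mul w
      have := h2.cexp
      simpa using this
    refine (e1.const_mul w⁻¹).congr_deriv ?_
    simp only [v']
    field_simp
  have eh1 : ∀ t : ℝ, u' t * Complex.exp (w * t) =
      h1 m ξ g g' t * Complex.exp ((y : ℂ) * Complex.I * t) := by
    intro t
    simp only [u', h1, hw]
    push_cast
    have e1 : Complex.exp (((ξ : ℂ) + (y : ℂ) * Complex.I) * t) =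
        Complex.exp ((ξ : ℂ) * t) * Complex.exp ((y : ℂ) * Complex.I * t) := by
      rw [← Complex.exp_add]
      congr 1
      ring
    have e2 : Complex.exp (-(((m : ℂ) - ξ) * t)) = Complex.exp (-((m : ℂ) * t)) *
        Complex.exp ((ξ : ℂ) * t) := by
      rw [← Complex.exp_add]
      congr 1
      ring
    rw [e1, e2]
    ring
  have eh0 : ∀ t : ℝ, u t * Complex.exp (w * t) =
      hh m ξ g t * Complex.exp ((y : ℂ) * Complex.I * t) := by
    intro t
    rw [hw]
    exact hh_eq m ξ y g t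
  have I1 : Integrable (u * v') := by
    refine k1.congr (Filter.Eventually.of_forall fun t => ?_)
    exact (eh0 t).symm
  have I2 : Integrable (u' * v) := by
    refine (k2.const_mul w⁻¹).congr (Filter.Eventually.of_forall fun t => ?_)
    simp only [Pi.mul_apply, v]
    rw [← eh1]
    ring
  have I3 : Integrable (u * v) := by
    refine (k1.const_mul w⁻¹).congr (Filter.Eventually.of_forall fun t => ?_)
    simp only [Pi.mul_apply, v]
    rw [← eh0]
    ring
  have key := integral_mul_deriv_eq_deriv_mul_of_integrable (fun t _ => hu t) (fun t _ => hv t) I1 I2 I3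
  have e1 : Em m g ((ξ : ℂ) + (y : ℂ) * Complex.I) = ∫ t, u t * v' t := by
    rw [← hw]
    rfl
  rw [e1, key]
  congr 1
  rw [← hw, ← integral_const_mul]
  refine integral_congr_ae (Filter.Eventually.of_forall fun t => ?_)
  simp only [v]
  rw [← eh1]
  ring

/-- the estimate after one integration by parts -/
lemma low {K : ℝ} (hK : ∀ t, |psi' t| ≤ K) (hξ : ξ + 2 ≤ m) (hgd : ∀ x, HasDerivAt g (g' x) x)
    (hg' : Continuous g') {M M' : ℝ} (hM : ∀ x, |g x| ≤ M) (hM' : ∀ x, |g' x| ≤ M') {B B' : ℝ}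
    (hB : ∀ A, ∫ x in A..(A + 2), g x ^ 2 ≤ B) (hB' : ∀ A, ∫ x in A..(A + 2), g' x ^ 2 ≤ B')
    {s : ℝ} (hs : s = 1 ∨ s = -1) {a b : ℝ} (ha : 0 < a) (hab : a ≤ b) :
    ∫ τ in a..b, ‖Em m g ((ξ : ℂ) + ((s * τ : ℝ) : ℂ) * Complex.I)‖ ^ 2 ≤
      (a ^ 2)⁻¹ * (2 * Real.pi * (2 * (3 / 2 : ℝ) ^ (-(2 * (m - ξ) - 2 + 1)) *
        (3 * ((K ^ 2 + m ^ 2) * B + B')))) := by
  have hg : Continuous g := continuous_iff_continuousAt.2 fun x => (hgd x).continuousAt
  obtain ⟨j1, j2, j3⟩ := dec (h1_cont (m := m) (ξ := ξ) hg hg') (fun t ht => h1_zero ht)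
    (h1_dec hξ hK hM hM')
  obtain ⟨p1, p2⟩ := planch_piece j1 j2 hs
  have hEc := (high hξ hg hM hB hs).1
  have hpt : ∀ τ ∈ Set.Icc a b, ‖Em m g ((ξ : ℂ) + ((s * τ : ℝ) : ℂ) * Complex.I)‖ ^ 2 ≤
      (a ^ 2)⁻¹ * ‖∫ t, h1 m ξ g g' t *
        Complex.exp (((s * τ : ℝ) : ℂ) * Complex.I * t)‖ ^ 2 := by
    intro τ hτ
    have hτ0 : 0 < τ := lt_of_lt_of_le ha hτ.1
    have hs0 : s ≠ 0 := by rcases hs with rfl | rfl <;> norm_num
    have habs : |s * τ| = τ := by
      rw [abs_mul, abs_of_pos hτ0]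
      rcases hs with rfl | rfl <;> simp
    rw [parts hξ hgd hg' hM hM' (mul_ne_zero hs0 hτ0.ne'), norm_neg, norm_mul, norm_inv, mul_pow,
      inv_pow]
    refine mul_le_mul_of_nonneg_right ?_ (by positivity)
    have h2 : a ≤ ‖(ξ : ℂ) + ((s * τ : ℝ) : ℂ) * Complex.I‖ := by
      have h3 := Complex.abs_im_le_norm ((ξ : ℂ) + ((s * τ : ℝ) : ℂ) * Complex.I)
      have h4 : ((ξ : ℂ) + ((s * τ : ℝ) : ℂ) * Complex.I).im = s * τ := by simp
      rw [h4, habs] at h3
      exact hτ.1.trans h3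
    exact inv_anti₀ (by positivity) (pow_le_pow_left₀ ha.le h2 2)
  calc ∫ τ in a..b, ‖Em m g ((ξ : ℂ) + ((s * τ : ℝ) : ℂ) * Complex.I)‖ ^ 2
      ≤ ∫ τ in a..b, (a ^ 2)⁻¹ * ‖∫ t, h1 m ξ g g' t *
        Complex.exp (((s * τ : ℝ) : ℂ) * Complex.I * t)‖ ^ 2 :=
        intervalIntegral.integral_mono_on hab ((hEc.norm.pow 2).intervalIntegrable _ _)
          ((continuous_const.mul (p1.norm.pow 2)).intervalIntegrable _ _) hpt
    _ = (a ^ 2)⁻¹ * ∫ τ in a..b, ‖∫ t, h1 m ξ g g' t *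
        Complex.exp (((s * τ : ℝ) : ℂ) * Complex.I * t)‖ ^ 2 :=
        intervalIntegral.integral_const_mul _ _
    _ ≤ _ := by
        refine mul_le_mul_of_nonneg_left ((p2 a b hab).trans ?_) (by positivity)
        refine mul_le_mul_of_nonneg_left ?_ (by positivity)
        refine ms_le (G := fun x => 3 * ((K ^ 2 + m ^ 2) * g x ^ 2 + g' x ^ 2))
          (b := 2 * (m - ξ) - 2) (by fun_prop) (fun x => by positivity) (by linarith)
          (fun A => ?_) (h1_cont hg hg') (fun t ht => h1_zero ht) j3 fun t ht => ?_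
        · have e5 : ∫ x in A..(A + 2), ((K ^ 2 + (m : ℝ) ^ 2) * g x ^ 2 + g' x ^ 2) =
              (K ^ 2 + (m : ℝ) ^ 2) * (∫ x in A..(A + 2), g x ^ 2) + ∫ x in A..(A + 2), g' x ^ 2 := by
            rw [← intervalIntegral.integral_const_mul]
            exact intervalIntegral.integral_add
              ((continuous_const.mul (hg.pow 2)).intervalIntegrable _ _)
              ((hg'.pow 2).intervalIntegrable _ _)
          rw [intervalIntegral.integral_const_mul, e5]
          have h1 := mul_le_mul_of_nonneg_left (hB A) (by positivity : 0 ≤ K ^ 2 + (m : ℝ) ^ 2)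
          linarith [hB' A]
        · have ht0 : 0 ≤ t := log32_pos.le.trans ht
          unfold h1
          rw [Complex.norm_real, Real.norm_eq_abs, sq_abs, mul_pow, ← Real.exp_nat_mul]
          have e2 : Real.exp (((2 : ℕ) : ℝ) * -((m - ξ) * t)) =
              Real.exp (-((2 * (m - ξ) - 2) * t)) * Real.exp (-(2 * t)) := by
            rw [← Real.exp_add]
            congr 1
            push_cast
            ring
          rw [e2]
          have e3 : Real.exp t ^ 2 * Real.exp (-(2 * t)) = 1 := by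
            rw [← Real.exp_nat_mul, ← Real.exp_add]
            push_cast
            rw [add_neg_cancel, Real.exp_zero]
          have h3 : psi t ^ 2 ≤ 1 := by
            rw [← sq_abs]
            exact pow_le_one₀ (abs_nonneg _) (psi_abs t)
          have h4 : psi' t ^ 2 ≤ K ^ 2 := by
            rw [← sq_abs]
            exact pow_le_pow_left₀ (abs_nonneg _) (hK t) 2
          have h5 : dd m g g' t ^ 2 * Real.exp (-(2 * t)) ≤
              3 * ((K ^ 2 + m ^ 2) * g (Real.exp t) ^ 2 + g' (Real.exp t) ^ 2) := by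
            obtain ⟨E, hE⟩ : ∃ E, E = Real.exp t := ⟨_, rfl⟩
            obtain ⟨e, he⟩ : ∃ e, e = Real.exp (-(2 * t)) := ⟨_, rfl⟩
            have he0 : 0 < e := he ▸ Real.exp_pos _
            have he1 : e ≤ 1 := he ▸ Real.exp_le_one_iff.2 (by linarith)
            rw [← hE, ← he] at e3
            unfold dd
            rw [← hE, ← he]
            obtain ⟨G, hG⟩ : ∃ G, G = g E := ⟨_, rfl⟩
            obtain ⟨G', hG'⟩ : ∃ G', G' = g' E := ⟨_, rfl⟩
            rw [← hG, ← hG']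
            have q1 : (psi' t * G + psi t * (G' * E) - m * (psi t * G)) ^ 2 ≤
                3 * (psi' t ^ 2 * G ^ 2 + psi t ^ 2 * (G' ^ 2 * E ^ 2) +
                  m ^ 2 * (psi t ^ 2 * G ^ 2)) := by
              nlinarith [sq_nonneg (psi' t * G - psi t * (G' * E)),
                sq_nonneg (psi' t * G + m * (psi t * G)),
                sq_nonneg (psi t * (G' * E) + m * (psi t * G))]
            have q2 : psi' t ^ 2 * G ^ 2 * e ≤ K ^ 2 * G ^ 2 := by
              have : psi' t ^ 2 * G ^ 2 ≤ K ^ 2 * G ^ 2 :=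
                mul_le_mul_of_nonneg_right h4 (sq_nonneg _)
              have h6 : psi' t ^ 2 * G ^ 2 * e ≤ psi' t ^ 2 * G ^ 2 :=
                mul_le_of_le_one_right (by positivity) he1
              linarith
            have q3 : psi t ^ 2 * (G' ^ 2 * E ^ 2) * e ≤ G' ^ 2 := by
              have : psi t ^ 2 * (G' ^ 2 * E ^ 2) * e = psi t ^ 2 * G' ^ 2 * (E ^ 2 * e) := by ring
              rw [this, e3, mul_one]
              exact mul_le_of_le_one_left (sq_nonneg _) h3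
            have q4 : m ^ 2 * (psi t ^ 2 * G ^ 2) * e ≤ (m : ℝ) ^ 2 * G ^ 2 := by
              have h6 : (m : ℝ) ^ 2 * (psi t ^ 2 * G ^ 2) * e ≤ m ^ 2 * (psi t ^ 2 * G ^ 2) :=
                mul_le_of_le_one_right (by positivity) he1
              have h7 : (m : ℝ) ^ 2 * (psi t ^ 2 * G ^ 2) ≤ m ^ 2 * G ^ 2 :=
                mul_le_mul_of_nonneg_left (mul_le_of_le_one_left (sq_nonneg _) h3) (sq_nonneg _)
              linarith
            calc _ ≤ 3 * (psi' t ^ 2 * G ^ 2 + psi t ^ 2 * (G' ^ 2 * E ^ 2) +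
                  m ^ 2 * (psi t ^ 2 * G ^ 2)) * e := mul_le_mul_of_nonneg_right q1 he0.le
              _ = 3 * (psi' t ^ 2 * G ^ 2 * e + psi t ^ 2 * (G' ^ 2 * E ^ 2) * e +
                  m ^ 2 * (psi t ^ 2 * G ^ 2) * e) := by ring
              _ ≤ _ := by linarith
          calc dd m g g' t ^ 2 * (Real.exp (-((2 * (m - ξ) - 2) * t)) * Real.exp (-(2 * t)))
              = (dd m g g' t ^ 2 * Real.exp (-(2 * t))) *
                Real.exp (-((2 * (m - ξ) - 2) * t)) := by ring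
            _ ≤ _ := mul_le_mul_of_nonneg_right h5 (Real.exp_pos _).le

end two

end Pool.Agent.Q176.NE
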